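import Pool.Agent.H217.CF.Spec

/-!
Numbers for project CF (MP_349e33_co): `s_num`, `s_logq`.
-/

set_option autoImplicit false

namespace Pool.Agent.H707.CF

open Pool.Agent.H217.CF

lemma exp_third_lt : Real.exp (1 / 3) < 1.39562 := by
  have h1 : Real.exp (1 / 3) ^ 3 = Real.exp 1 := by
    rw [← Real.exp_nat_mul]
    norm_num
  have h2 := Real.exp_one_lt_d9
  refine lt_of_pow_lt_pow_left₀ 3 (by norm_num) ?_
  rw [h1]
  refine h2.trans ?_
  norm_num

lemma log_F_lt {x : ℝ} (h0 : 0 < x) (hx : x < 2.18686) : Real.log x < 18 / 23 := by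
  rw [Real.log_lt_iff_lt_exp h0]
  refine hx.trans ?_
  have h1 : Real.exp (18 / 23) ^ 23 = Real.exp 1 ^ 18 := by
    rw [← Real.exp_nat_mul, ← Real.exp_nat_mul]
    norm_num
  refine lt_of_pow_lt_pow_left₀ 23 (Real.exp_pos _).le ?_
  rw [h1]
  have h2 : (2.7182818283 : ℝ) ^ 18 < Real.exp 1 ^ 18 :=
    pow_lt_pow_left₀ Real.exp_one_gt_d9 (by norm_num) (by norm_num)
  refine lt_trans ?_ h2
  norm_num

lemma log_a_lt : Real.log 0.64 < -(29 / 65) := by
  rw [Real.log_lt_iff_lt_exp (by norm_num), Real.exp_neg]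
  have h1 : Real.exp (29 / 65) ^ 65 = Real.exp 1 ^ 29 := by
    rw [← Real.exp_nat_mul, ← Real.exp_nat_mul]
    norm_num
  have h2 : Real.exp 1 ^ 29 < (2.7182818286 : ℝ) ^ 29 :=
    pow_lt_pow_left₀ Real.exp_one_lt_d9 (Real.exp_pos _).le (by norm_num)
  have h3 : Real.exp (29 / 65) < 1 / 0.64 := by
    refine lt_of_pow_lt_pow_left₀ 65 (by norm_num) ?_
    rw [h1]
    refine h2.trans ?_
    norm_num
  rw [lt_inv_comm₀ (by norm_num) (Real.exp_pos _)]
  rwa [one_div] at h3

/-- the numerical inequality -/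
theorem s_num : S_num := by
  have hE := exp_third_lt
  have hE0 : 1 < Real.exp (1 / 3) := by
    rw [Real.one_lt_exp_iff]
    norm_num
  have hF := log_F_lt (x := 1 + 3 * (Real.exp (1 / 3) - 1)) (by linarith) (by linarith)
  have ha := log_a_lt
  have key : (0.142 : ℝ) < mm 3 0.64 1 := by
    unfold mm
    rw [Real.log_one]
    push_cast
    nlinarith
  refine ⟨0.64, 1, by norm_num, by norm_num, by linarith, ?_⟩
  rw [lt_div_iff₀ (by norm_num)]
  refine lt_of_le_of_lt ?_ key
  norm_num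

/-- the logarithmic lower bound -/
theorem s_logq : S_logq := by
  intro q hq
  have hq1 : (2 : ℝ) ≤ q := by exact_mod_cast hq
  have hq0 : (q : ℝ) ≠ 0 := by positivity
  have h1 : (2 : ℝ) * q / q = 2 := by
    rw [mul_div_assoc, div_self hq0, mul_one]
  have h2 : Real.log (1 + q * (Real.exp (2 * q / q) - 1)) ≤ Real.log q + 2 := by
    rw [h1]
    have h3 : Real.log q + 2 = Real.log (q * Real.exp 2) := by
      rw [Real.log_mul hq0 (Real.exp_pos _).ne', Real.log_exp]
    rw [h3]
    have h4 : 1 < Real.exp 2 := by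
      rw [Real.one_lt_exp_iff]
      norm_num
    refine Real.log_le_log ?_ ?_
    · have : 0 ≤ (q : ℝ) * (Real.exp 2 - 1) := mul_nonneg (by positivity) (by linarith)
      linarith
    · rw [mul_sub, mul_one]
      linarith
  unfold mm
  rw [Real.log_mul (by norm_num) hq0]
  linarith

end Pool.Agent.H707.CF
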